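import Pool.Agent.Q235.FD.Twist

/-!
# `L₂(s)` in the half plane `Re s > 3 / 2` for all products of the curves of almost all systems of hyperelliptic curves whose
coefficients arise from arbitrary integers by changing a few digits

Let `C₁, ..., C_n` be hyperelliptic curves `Y ^ 2 = X ^ (2 g_i + 1) + ... + m (i, 0)` of genera `g_i ≥ 1` whose coefficients arise from
arbitrary integers by changing a few digits at random positions, and let `X = C_{i 1} × ... × C_{i r}` be a product of `r` of them,
repetitions allowed. By the Künneth formula `b_p(X) = r p + ∑_{k < l} a_p(C_{i k}) a_p(C_{i l})`, and for generic coefficients the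
rank of `NS(X / ℚ)` is `ρ = r + #{k < l : i k = i l}` (the fibres of the projections, and the graphs of the equalities). So Tate's
conjecture says that `L₂(s, X) / ζ(s - 1) ^ ρ` has neither a pole nor a zero at `s = 2`. Up to a Dirichlet series which converges
absolutely for `Re s > 3 / 2` the logarithmic derivative of this quotient is `- ∑ (b_p(X) - ρ p) log p p ^ (-s)`. We show for almost
all choices of the positions that the sum of `w_p (b_p(X) - ρ p) log p p ^ (-s)` over the good primes `p` with `y < p ≤ x` is at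
most `r ^ 2 (2 + |s|) y ^ (-δ / 4)`, for all complex `s` with `Re s ≥ 3 / 2 + δ`, all the products `X` of `r` of the curves, all `w`
in an arbitrary family of `y ^ B` weight functions with values in `[-1, 1]` (twists) and all `x` from `y` to `exp (c d)`, where `d`
is the number of the digits changed: not only is the order of the pole at `s = 2` the one predicted, but also no other zero or pole is
seen in the whole half plane `Re s > 3 / 2` of the Riemann hypothesis.

The proof uses the law for functions of the residues of such tuples (library `TH894.NE`), Weil's bound (library `H341R2`), the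
averages over the polynomials modulo `p`, and partial summation.
-/

set_option autoImplicit false

namespace Pool.Agent.Results.MP_1f4fc7_nt.FewDigitProducts

open Finset Pool.Agent.Q235.FD

/-- The pairs `k < l` of factors. -/
def pairs (r : ℕ) : Finset (Fin r × Fin r) := univ.filter (fun kl => kl.1 < kl.2)

/-- The trace `a_p` of Frobenius on `H ^ 1` of the curve `Y ^ 2 = X ^ D + m (D - 1) X ^ (D - 1) + ... + m 0`, `D` odd: it is
`p + 1 - N`, where the number `N` of the points modulo `p` is `affine p m + 1` (there is one point at infinity). -/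
noncomputable def traceH1 {D : ℕ} (p : ℕ) (m : Fin D → ℕ) : ℝ := (p : ℝ) + 1 - ((affine p m + 1 : ℕ) : ℝ)

/-- The trace `b_p` of Frobenius on `H ^ 2` of the product of the curves number `i 1, ..., i r`, by the Künneth formula. -/
noncomputable def traceH2 {n r : ℕ} {D : Fin n → ℕ} (p : ℕ) (m : (Σ i, Fin (D i)) → ℕ) (i : Fin r → Fin n) : ℝ :=
  r * p + ∑ kl ∈ pairs r, traceH1 p (fun j => m ⟨i kl.1, j⟩) * traceH1 p (fun j => m ⟨i kl.2, j⟩)

/-- The rank `r + #{k < l : i k = i l}` of the Néron-Severi group for generic coefficients. -/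
def rank {n r : ℕ} (i : Fin r → Fin n) : ℕ := r + ((pairs r).filter (fun kl => i kl.1 = i kl.2)).card

open Classical in
/-- The sum over the primes `p` with `y < p ≤ x`, good for all the curves, of `w_p (b_p(X) - ρ p) log p p ^ (-s)`. -/
noncomputable def series {n r : ℕ} {D : Fin n → ℕ} (y x : ℕ) (m : (Σ i, Fin (D i)) → ℕ) (i : Fin r → Fin n) (w : ℕ → ℝ) (s : ℂ) : ℂ :=
  primeSum y x (fun p => if AllGood p m then (w p * (traceH2 p m i - rank i * p) * Real.log p : ℝ) * (p : ℂ) ^ (-s) else 0)

/-- For all systems of `n ≥ 1` genera `g_i ≥ 1`, numbers `r` of factors, bases `b ≥ 2`, `δ > 0`, `A` and `B`, for almost all systems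
`m` of coefficient vectors obtained by changing a few digits of arbitrary integers (`ForAlmostAllFrom`), uniformly in the family `θ` of
at most `y ^ B` weight functions: `|series y x m i w s| ≤ r ^ 2 (2 + |s|) y ^ (-δ / 4)` for all `i : Fin r → Fin n` and all `s` with
`Re s ≥ 3 / 2 + δ`. -/
theorem result (n : ℕ) (hn : 1 ≤ n) (g : Fin n → ℕ) (hg : ∀ i, 1 ≤ g i) (r b : ℕ) (hb : 2 ≤ b) (δ : ℝ) (hδ : 0 < δ) (A B : ℕ) :
    ForAlmostAllFrom (Σ i, Fin (2 * g i + 1)) b A (fun (θ : Weights B) y x m => ∀ w ∈ θ.W y, ∀ i : Fin r → Fin n, ∀ s : ℂ,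
      3 / 2 + δ ≤ s.re → ‖series y x m i w s‖ ≤ r ^ 2 * (2 + ‖s‖) * (y : ℝ) ^ (-(δ / 4))) := by
  classical
  obtain ⟨c, hc, y₀, H⟩ := pair_series (D := fun i => 2 * g i + 1) hn (fun i => ⟨g i, rfl⟩) (fun i => by have := hg i; omega) hb hδ A B
  refine ⟨c, hc, y₀, fun θ K d N f y hset hy => le_trans (Nat.cast_le.2 (exceptions_mono ?_)) (H θ K d N f y hset hy)⟩
  intro m hm x hx hr w hw i s hs
  have h1 := (hm x hx hr w hw (s - 1) (by rw [Complex.sub_re, Complex.one_re]; linarith)).2
  have e : series y x m i w s = ∑ kl ∈ pairs r, primeSum y x (fun p => ((w p * Real.log p * (if AllGood p m then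
          ntrace p (fun l => m ⟨i kl.1, l⟩) * ntrace p (fun l => m ⟨i kl.2, l⟩) - (if i kl.1 = i kl.2 then 1 else 0) else 0) : ℝ) : ℂ) *
          (p : ℂ) ^ (-(s - 1))) := by
    unfold series primeSum
    rw [sum_comm]
    refine sum_congr rfl fun p hp => ?_
    beta_reduce
    by_cases hgood : AllGood p m
    · rw [if_pos hgood]
      simp only [if_pos hgood]
      have hpp : (0 : ℝ) < p := by exact_mod_cast (mem_filter.1 hp).2.pos
      have hpc : ((p : ℕ) : ℂ) ≠ 0 := by exact_mod_cast (mem_filter.1 hp).2.ne_zero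
      have hs2 : Real.sqrt p * Real.sqrt p = p := Real.mul_self_sqrt hpp.le
      have hs0 : 0 < Real.sqrt p := Real.sqrt_pos.2 hpp
      have e1 : ∀ (D : ℕ) (u : Fin D → ℕ), traceH1 p u = ntrace p u * Real.sqrt p := by
        intro D u
        unfold traceH1 ntrace
        push_cast
        field_simp
        ring
      have e2 : traceH2 p m i - rank i * p = p * ∑ kl ∈ pairs r,
          (ntrace p (fun l => m ⟨i kl.1, l⟩) * ntrace p (fun l => m ⟨i kl.2, l⟩) - (if i kl.1 = i kl.2 then 1 else 0)) := by
        unfold traceH2 rank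
        rw [sum_sub_distrib, ← sum_filter, sum_const, nsmul_eq_mul, mul_one, card_filter]
        have e3 : ∑ kl ∈ pairs r, traceH1 p (fun j => m ⟨i kl.1, j⟩) * traceH1 p (fun j => m ⟨i kl.2, j⟩) =
            p * ∑ kl ∈ pairs r, ntrace p (fun l => m ⟨i kl.1, l⟩) * ntrace p (fun l => m ⟨i kl.2, l⟩) := by
          rw [mul_sum]
          refine sum_congr rfl fun kl _ => ?_
          rw [e1, e1, mul_mul_mul_comm, hs2]
          ring
        rw [e3, ← card_filter]
        push_cast
        ring
      have e4 : ((p : ℕ) : ℂ) ^ (-(s - 1)) = (p : ℂ) ^ (-s) * p := by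
        rw [show -(s - 1) = -s + 1 by ring, Complex.cpow_add _ _ hpc, Complex.cpow_one]
      rw [e2, e4]
      rw [← sum_mul]
      push_cast
      rw [← mul_sum]
      ring
    · rw [if_neg hgood]
      simp only [if_neg hgood]
      simp
  rw [e]
  have hcard : ((pairs r).card : ℝ) ≤ (r : ℝ) ^ 2 := by
    have : (pairs r).card ≤ r ^ 2 := by
      unfold pairs
      refine (card_filter_le _ _).trans ?_
      rw [card_univ, Fintype.card_prod, Fintype.card_fin, sq]
    exact_mod_cast this
  have hnorm : 1 + ‖s - 1‖ ≤ 2 + ‖s‖ := by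
    have := norm_sub_le s 1
    rw [norm_one] at this
    linarith
  calc _ ≤ ∑ kl ∈ pairs r, (2 + ‖s‖) * (y : ℝ) ^ (-(δ / 4)) := by
        refine (norm_sum_le _ _).trans (sum_le_sum fun kl _ => (h1 (i kl.1) (i kl.2)).trans ?_)
        exact mul_le_mul_of_nonneg_right hnorm (by positivity)
    _ = (pairs r).card * ((2 + ‖s‖) * (y : ℝ) ^ (-(δ / 4))) := by rw [sum_const, nsmul_eq_mul]
    _ ≤ r ^ 2 * ((2 + ‖s‖) * (y : ℝ) ^ (-(δ / 4))) := mul_le_mul_of_nonneg_right hcard (by positivity)
    _ = _ := by ring

end Pool.Agent.Results.MP_1f4fc7_nt.FewDigitProducts
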