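import Pool.Agent.Y139.SM.Final
import Pool.Agent.Q11.TP.Defs

/-!
# The fourth tensor power of the transcendental part excludes the defects of Tate's conjecture

`X` is a smooth projective variety over a number field `K` and `V` the space of the classes of the
algebraic cycles of codimension `m` defined over the algebraic closure; for `m = 1`, the question, it is
`NS(X) ⊗ ℚ`.  `T` is the transcendental part of `H^{2m}(X)`, the complement of `V(-m)`.
The theorem relates the order of the pole of `L(H^{2m}(X) ⊗ χ, s)` to those for `T ⊗ T` and `T^{⊗ 4}`, which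
are parts of the cohomology of `X²` and `X⁴`.
The definitions are in `Pool.Agent.Q11.TP.Defs`, `Pool.Agent.Y139.SM.Defs`,
`Pool.Agent.W353.AT.TDefs`, `Pool.Agent.W353.AT.Defs`, `Pool.Agent.W353.TD.Defs`,
`Pool.Agent.W353.EH.Defs` and `Pool.Agent.W353.EF.Defs`.
-/

set_option autoImplicit false

namespace Pool.Agent.Results.MP_1f4fc7_nt.FourthTensorPower

open NumberField Pool.Agent.Q11.TP

/-- **The fourth tensor power.**  Let `X` be a projective variety of dimension `d` over a
number field `K`, `0 ≤ m ≤ d`, `N` the `2m`-th Betti number, `V` a part of `H^{2m}(X)(m)`, for instance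
`NS(X) ⊗ ℚ` for `m = 1`, `T` the complement of `V(-m)` and `s = N - dim V`.  Let `χ` be an irreducible
Artin representation of dimension `n`, `tr ψ = |tr χ|²`, `x(ε)` the difference between
`log |L(H^{2m}(X) ⊗ χ, m + 1 + ε)| / log(1/ε)` and the number predicted by Tate, and `S_{r,ψ}(ε)` the quotient
`log |L(T^{⊗ r} ⊗ ψ, r m + 1 + ε)| / log(1/ε)`.  For all small `ε > 0`, without any continuation,
`|x(ε)| ≤ (S_{2,1}(ε) + 1) / 2 - (S_{4,1}(ε) - 2 S_{2,ψ}(ε) + 1) / (2 (s + n)²) + η`.
So if `L(T ⊗ T, s)` and `L(T ⊗ T ⊗ ψ, s)` have simple poles at the edge and the pole of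
`L(T^{⊗ 4}, s)` is not simple, then `χ` has no defect; if this is the case for all `χ`, the order of the
pole is the one predicted by Tate over all number fields `F ⊇ K` (`FourthPower`). -/
theorem result (K : Type) [Field K] [NumberField K] (n d m N : ℕ)
    (X : Set (MvPolynomial (Fin n) (𝓞 K))) (V : Type) [AddCommGroup V] [Module ℚ V]
    [FiniteDimensional ℚ V] (ρ : Representation ℚ Gal(AlgebraicClosure K/K) V) (hm : m ≤ d)
    (hV : Pool.Agent.W353.TD.IsPart X d m N ρ) : FourthPower X d m N ρ :=
  Pool.Agent.Y139.SM.selfProducts hm hV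

end Pool.Agent.Results.MP_1f4fc7_nt.FourthTensorPower
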