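import Pool.Agent.Q11.TP.Square
import Pool.Agent.Q11.TP.Defs

/-!
# A defect of Tate's conjecture and a simple pole of `L(T ⊗ T, s)` determine all tensor powers of `T`

`X` is a smooth projective variety over a number field `K` and `V` the space of the classes of the
algebraic cycles of codimension `m` defined over the algebraic closure; for `m = 1`, the question, it is
`NS(X) ⊗ ℚ`.  `T` is the transcendental part of `H^{2m}(X)`, the complement of `V(-m)`.  For an Artin
representation `χ` of `K` the defect `δ` is the difference between `dim (V ⊗ χ)^{Gal(K̄/K)}` and the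
order of the pole of `L(H^{2m}(X) ⊗ χ, s)` at `s = m + 1`; Tate's conjecture says that it is `0`.
The definitions are in `Pool.Agent.Q11.TP.Defs`, `Pool.Agent.Y139.SM.Defs`,
`Pool.Agent.W353.AT.TDefs`, `Pool.Agent.W353.AT.Defs`, `Pool.Agent.W353.TD.Defs`,
`Pool.Agent.W353.EH.Defs` and `Pool.Agent.W353.EF.Defs`.
-/

set_option autoImplicit false

namespace Pool.Agent.Results.MP_1f4fc7_nt.SimplePoleRigidity

open NumberField Pool.Agent.Q11.TP

/-- **Rigidity of a defect.**  Let `X` be a projective variety of dimension `d` over a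
number field `K`, `0 ≤ m ≤ d`, `N` the `2m`-th Betti number, `V` a part of `H^{2m}(X)(m)`, for instance
`NS(X) ⊗ ℚ` for `m = 1`, and `T` the complement of `V(-m)`.  Let `L(T ⊗ T, s)` have at most a simple pole
at the edge, and let an irreducible Artin representation `χ` have the defect `δ ≠ 0`.  Then the pole is
simple, `δ = ±1`, `χ` is self-dual, and `L(T^{⊗ r} ⊗ ψ, s)` has a pole of order `(-δ)^r dim (χ^{⊗ r} ⊗ ψ)^G`
at the edge for all `r` and all Artin representations `ψ`, as if `T` were `-δ χ`.  This follows from an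
inequality between the `L`-functions at the distance `ε` from the edge in which no continuation is
assumed (`DefectRigidity`). -/
theorem result (K : Type) [Field K] [NumberField K] (n d m N : ℕ)
    (X : Set (MvPolynomial (Fin n) (𝓞 K))) (V : Type) [AddCommGroup V] [Module ℚ V]
    [FiniteDimensional ℚ V] (ρ : Representation ℚ Gal(AlgebraicClosure K/K) V) (hm : m ≤ d)
    (hV : Pool.Agent.W353.TD.IsPart X d m N ρ) : DefectRigidity X d m N ρ := by
  intro k χ hχ hirr
  refine ⟨fun r n' n'' ψ θ B₁ B₂ B hψ hθ hc hB₁ hB₂ hB => ⟨?_, fun e he δ η hδ hη => ?_⟩,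
    fun p δ hp1 hp hδ h0 => ?_⟩
  · choose σ hσ using Pool.Agent.W540.BE.exists_isFrob (F := K)
    have hg := Pool.Agent.Y139.SM.good_of_part (by omega) hV hσ
    filter_upwards [(Pool.Agent.W353.AT.tw_C (by omega) hσ hg hV.1 ⟨k, χ⟩ hχ B₁ hB₁).1,
      (Pool.Agent.Y139.SM.tensor_size (by omega) hσ hg 2 _ Pool.Agent.Y139.SM.one_artin B₂ hB₂).1,
      (Pool.Agent.Y139.SM.tensor_size (by omega) hσ hg r ψ hψ B hB).1] with ε h1 h2 h3
    exact ⟨h1, h2, h3⟩
  · exact rigidT hm hV hχ hirr hB₁ hB₂ he r hψ hθ hc hB hδ hη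
  · obtain ⟨h1, h2, h3, h4⟩ := rigidT_defect hm hV hp1 hp hχ hirr hδ h0
    exact ⟨h1, h2, h3, h4⟩

end Pool.Agent.Results.MP_1f4fc7_nt.SimplePoleRigidity
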