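import Pool.Agent.Q11.TP.Square
import Pool.Agent.Q11.TP.Defs

/-!
# The defects of Tate's conjecture are bounded by the pole of `L(T ⊗ T, s)`

`X` is a smooth projective variety over a number field `K` and `V` the space of the classes of the
algebraic cycles of codimension `m` defined over the algebraic closure; for `m = 1`, the question, it is
`NS(X) ⊗ ℚ`.  `T` is the transcendental part of `H^{2m}(X)`, the complement of `V(-m)`, of dimension `s`.
For an Artin representation `χ` of `K` the defect `δ_χ` is the difference between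
`dim (V ⊗ χ)^{Gal(K̄/K)}` and the order of the pole of `L(H^{2m}(X) ⊗ χ, s)` at `s = m + 1`; for a number
field `F ⊇ K` the defect over `F` is the difference between the rank of the group of the classes defined
over `F` and the order of the pole of `L(H^{2m}(X_F), s)`.  Known is `∑ δ_χ² ≤ s²`.  Here `s²` is
replaced by the order of the pole of `L(T ⊗ T, s)` at the edge of its half-plane of convergence, which
should be `dim End(T)^{Gal(K̄/K)}`.
The definitions are in `Pool.Agent.Q11.TP.Defs`, `Pool.Agent.Y139.SM.Defs`,
`Pool.Agent.W353.AT.TDefs`, `Pool.Agent.W353.AT.Defs`, `Pool.Agent.W353.TD.Defs`,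
`Pool.Agent.W353.EH.Defs` and `Pool.Agent.W353.EF.Defs`.
-/

set_option autoImplicit false

namespace Pool.Agent.Results.MP_1f4fc7_nt.TensorSquareBessel

open NumberField Pool.Agent.Q11.TP

/-- **The defects and the tensor square.**  Let `X` be a projective variety of dimension `d` over a
number field `K`, `0 ≤ m ≤ d`, `N` the `2m`-th Betti number, `V` a part of `H^{2m}(X)(m)`, for instance
`NS(X) ⊗ ℚ` for `m = 1`, and `T` the complement of `V(-m)`.
* (No continuation is assumed.)  For pairwise inequivalent irreducible Artin representations `χ_k` of `K`,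
  every `η > 0` and all small `ε > 0`, the sum of the squares of
  `log |L(H^{2m}(X) ⊗ χ_k, m + 1 + ε)| / log(1/ε) - dim (V ⊗ χ_k)^{Gal(K̄/K)}` is at most
  `log |L(T ⊗ T, 2m + 1 + ε)| / log(1/ε) + η`.
* If `L(T ⊗ T, s)` has a pole of order `p` at `2m + 1`, then `∑ δ_k² ≤ p` for the integral defects
  of the `χ_k`; if all irreducible Artin representations of `K` have integral defects, then all but at
  most `p` of them have the defect `0`, and these at most `p` defects determine the order over every
  number field `F ⊇ K`: the defect over `F` is `∑ δ_k dim χ_k^{Gal(K̄/F)}`. -/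
theorem result (K : Type) [Field K] [NumberField K] (n d m N : ℕ)
    (X : Set (MvPolynomial (Fin n) (𝓞 K))) (V : Type) [AddCommGroup V] [Module ℚ V]
    [FiniteDimensional ℚ V] (ρ : Representation ℚ Gal(AlgebraicClosure K/K) V) (hm : m ≤ d)
    (hV : Pool.Agent.W353.TD.IsPart X d m N ρ) : SquareBessel X d m N ρ := by
  refine ⟨fun κ _ k χ B B₂ h1 h2 h3 h4 h5 => ⟨fun j => ?_, ?_, fun η hη => ?_⟩,
    fun p hp => ⟨fun κ _ k χ δ h1 h2 h3 h4 => ?_, fun H => ?_⟩⟩
  · choose σ hσ using Pool.Agent.W540.BE.exists_isFrob (F := K)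
    exact (Pool.Agent.W353.AT.tw_C (by omega) hσ
      (Pool.Agent.Y139.SM.good_of_part (by omega) hV hσ) hV.1 ⟨k j, χ j⟩ (h1 j) (B j) (h4 j)).1
  · choose σ hσ using Pool.Agent.W540.BE.exists_isFrob (F := K)
    exact (Pool.Agent.Y139.SM.tensor_size (by omega) hσ
      (Pool.Agent.Y139.SM.good_of_part (by omega) hV hσ) 2 _ Pool.Agent.Y139.SM.one_artin B₂ h5).1
  · exact besselT hm hV k χ h1 h2 h3 B h4 B₂ h5 hη
  · exact sum_defects hm hV hp k χ δ h1 h2 h3 h4
  · exact allFields hm hV hp H

end Pool.Agent.Results.MP_1f4fc7_nt.TensorSquareBessel
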